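import Mathlib
import Pool.Agent.H.MP_233b81_lc.Defs
import Pool.Agent.H.MP_233b81_lc.Class
import Pool.Agent.H.MP_233b81_lc.Anti

/-!
Negative answer to Q2 (Cenzer-Remmel): some computably bounded `Π⁰₁` class represents the class of
decompositions into `k` antichains of no computable partial ordering, for no `k`; this remains true
when decompositions are counted up to renaming the antichains.
-/

namespace Pool.Agent.Results.MP_233b81_lc.Antichains

open Pool.Agent.H.MP_233b81_lc

theorem result :
    ∃ P : Set (ℕ → ℕ), IsCBClass P ∧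
      ∀ (A : Set ℕ) (R : ℕ → ℕ → Prop), IsComputablePoset A R → ∀ k : ℕ,
        (∀ c : (A → Fin k) → (ℕ → ℕ), Set.InjOn c (AntichainDecomp A R k) →
          ¬ Represents P (c '' AntichainDecomp A R k)) ∧
        ¬ ∃ F : P → (A → Fin k), (∀ p, F p ∈ AntichainDecomp A R k) ∧
          ∀ d ∈ AntichainDecomp A R k, ∃! p : P,
            ∃ τ : Equiv.Perm (Fin k), d = fun x => τ (F p x) := by
  refine ⟨P₀, P₀_cb, ?_⟩
  intro A R hAR k
  let inst : PartialOrder A :=
    { le := fun x y => R x.1 y.1
      lt := fun x y => R x.1 y.1 ∧ ¬ R y.1 x.1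
      le_refl := fun x => hAR.refl x.1 x.2
      le_trans := fun x y z h1 h2 => hAR.trans x.1 y.1 z.1 h1 h2
      lt_iff_le_not_ge := fun x y => Iff.rfl
      le_antisymm := fun x y h1 h2 => Subtype.ext (hAR.antisymm x.1 y.1 h1 h2) }
  have heq : AntichainDecomp A R k = @AntiCol A inst k := by
    ext f
    constructor
    · intro h x y hxy hle
      by_contra hne
      exact (h x y hxy hne).1 hle
    · intro h x y hxy hne
      exact ⟨fun hle => hne (h x y hxy hle), fun hle => hne (h y x hxy.symm hle).symm⟩
  have hD : (AntichainDecomp A R k).Finite ∨ ¬ (AntichainDecomp A R k).Countable := by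
    rw [heq]
    exact @anti_dichotomy A inst k
  exact ⟨fun c hc => no_rep _ hD c hc, no_rep_renaming _ hD⟩

end Pool.Agent.Results.MP_233b81_lc.Antichains
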