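import Mathlib
import Pool.Agent.H.MP_233b81_lc.Defs
import Pool.Agent.H.MP_233b81_lc.Class
import Pool.Agent.H.MP_233b81_lc.Chain

/-!
Negative answer to Q1 (Cenzer-Remmel): some computably bounded `Π⁰₁` class represents the class of
decompositions into `k` chains of no computable partial ordering, for no `k`; this remains true when
decompositions are counted up to renaming the chains.
-/

namespace Pool.Agent.Results.MP_233b81_lc.Chains

open Pool.Agent.H.MP_233b81_lc

theorem result :
    ∃ P : Set (ℕ → ℕ), IsCBClass P ∧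
      ∀ (A : Set ℕ) (R : ℕ → ℕ → Prop), IsComputablePoset A R → ∀ k : ℕ,
        (∀ c : (A → Fin k) → (ℕ → ℕ), Set.InjOn c (ChainDecomp A R k) →
          ¬ Represents P (c '' ChainDecomp A R k)) ∧
        ¬ ∃ F : P → (A → Fin k), (∀ p, F p ∈ ChainDecomp A R k) ∧
          ∀ d ∈ ChainDecomp A R k, ∃! p : P, ∃ τ : Equiv.Perm (Fin k), d = fun x => τ (F p x) := by
  refine ⟨P₀, P₀_cb, ?_⟩
  intro A R hAR k
  have hPO : PO (fun x y : A => R x.1 y.1) :=
    ⟨fun x => hAR.refl x.1 x.2, fun x y h1 h2 => Subtype.ext (hAR.antisymm x.1 y.1 h1 h2),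
      fun x y z h1 h2 => hAR.trans x.1 y.1 z.1 h1 h2⟩
  have hD : (ChainDecomp A R k).Finite ∨ ¬ (ChainDecomp A R k).Countable :=
    chain_dichotomy hPO k
  exact ⟨fun c hc => no_rep _ hD c hc, no_rep_renaming _ hD⟩

end Pool.Agent.Results.MP_233b81_lc.Chains
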